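import Mathlib

open Polynomial Filter Topology

namespace Pool.Agent.V1146.GF

/-- A nondegenerate solution of the quadratic system is algebraic over the coefficient field. -/
theorem isAlgebraic_of_system {k F : Type} [Field k] [Field F] [Algebra k F] {ι : Type}
    [Fintype ι] [DecidableEq ι]
    (g : ι → F) (K : ι → ι → k) (h : ι → k)
    (hsys : ∀ j, g j * (algebraMap k F (h j) - ∑ l, algebraMap k F (K j l) * g l) = 1)
    (hdet : (Matrix.of fun j l => (if j = l then (1:F) else 0) -
      g j ^ 2 * algebraMap k F (K j l)).det ≠ 0) (j : ι) :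
    IsAlgebraic k (g j) := by
  classical
  set L := IntermediateField.adjoin k (Set.range g) with hL
  have hmem : ∀ j, g j ∈ L := fun j => IntermediateField.subset_adjoin _ _ ⟨j, rfl⟩
  let g' : ι → L := fun j => ⟨g j, hmem j⟩
  have : Algebra.EssFiniteType k L := IntermediateField.essFiniteType_iff.mpr
    (IntermediateField.fg_adjoin_of_finite (Set.finite_range g))
  have hsys' : ∀ j, g' j * (algebraMap k L (h j) - ∑ l, algebraMap k L (K j l) * g' l) = 1 := by
    intro j
    apply Subtype.ext
    have := hsys j
    push_cast
    exact this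
  let D := KaehlerDifferential.D k L
  have hDg : ∀ j, D (g' j) = (g' j)^2 • ∑ l, (algebraMap k L (K j l)) • D (g' l) := by
    intro j
    have h1 := congrArg D (hsys' j)
    rw [Derivation.leibniz, map_sub, Derivation.map_algebraMap, map_sum, Derivation.map_one_eq_zero]
      at h1
    have h2 : ∀ l, D (algebraMap k L (K j l) * g' l) = algebraMap k L (K j l) • D (g' l) := by
      intro l
      rw [Derivation.leibniz, Derivation.map_algebraMap, smul_zero, add_zero]
    simp_rw [h2] at h1
    have h3 := congrArg (fun v => g' j • v) h1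
    simp only [smul_add, smul_zero, zero_sub, smul_neg] at h3
    rw [smul_smul (g' j) (algebraMap k L (h j) - ∑ l, algebraMap k L (K j l) * g' l), hsys' j,
      one_smul, smul_smul, ← pow_two] at h3
    rw [eq_comm]
    rw [neg_add_eq_zero] at h3
    exact h3
  have hDg0 : ∀ j, D (g' j) = 0 := by
    intro j
    rw [← Module.forall_dual_apply_eq_zero_iff L]
    intro f
    have hvec : (Matrix.of fun j l => (if j = l then (1:L) else 0) -
        g' j ^ 2 * algebraMap k L (K j l)).mulVec (fun l => f (D (g' l))) = 0 := by
      funext i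
      have := congrArg f (hDg i)
      simp only [map_smul, map_sum, smul_eq_mul] at this
      simp only [Matrix.mulVec, dotProduct, Matrix.of_apply, Pi.zero_apply, sub_mul, ite_mul,
        one_mul, zero_mul, Finset.sum_sub_distrib, Finset.sum_ite_eq, Finset.mem_univ, if_true]
      rw [this, Finset.mul_sum, sub_eq_zero]
      apply Finset.sum_congr rfl
      intro l _
      rw [mul_assoc]
    have hdet' : (Matrix.of fun j l => (if j = l then (1:L) else 0) -
        g' j ^ 2 * algebraMap k L (K j l)).det ≠ 0 := by
      intro h0
      apply hdet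
      have := congrArg (algebraMap L F) h0
      rw [map_zero, RingHom.map_det] at this
      refine Eq.trans ?_ this
      congr 1
      ext a b
      simp only [Matrix.of_apply, RingHom.mapMatrix_apply, Matrix.map_apply, map_sub, map_mul,
        map_pow]
      congr 1
      split_ifs <;> simp
    exact congrFun (Matrix.eq_zero_of_mulVec_eq_zero hdet' hvec) j
  have hDall : ∀ (x : F) (hx : x ∈ L), D (⟨x, hx⟩ : L) = 0 := by
    intro x hx
    refine IntermediateField.adjoin_induction (p := fun x hx => D (⟨x, hx⟩ : L) = 0) k
      ?_ ?_ ?_ ?_ ?_ hx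
    · rintro x ⟨j, rfl⟩
      exact hDg0 j
    · intro x
      exact D.map_algebraMap x
    · intro x y hx hy h1 h2
      have : (⟨x + y, add_mem hx hy⟩ : L) = ⟨x, hx⟩ + ⟨y, hy⟩ := rfl
      rw [this, map_add, h1, h2, add_zero]
    · intro x hx h1
      have : (⟨x⁻¹, inv_mem hx⟩ : L) = (⟨x, hx⟩ : L)⁻¹ := rfl
      rw [this, Derivation.leibniz_inv, h1, smul_zero]
    · intro x y hx hy h1 h2
      have : (⟨x * y, mul_mem hx hy⟩ : L) = ⟨x, hx⟩ * ⟨y, hy⟩ := rfl
      rw [this, Derivation.leibniz, h1, h2, smul_zero, smul_zero, add_zero]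
  have : Algebra.FormallyUnramified k L := by
    constructor
    rw [← Submodule.subsingleton_iff L, ← subsingleton_iff_bot_eq_top, eq_comm,
      ← KaehlerDifferential.span_range_derivation k L, Submodule.span_eq_bot]
    rintro _ ⟨x, rfl⟩
    exact hDall x.1 x.2
  have : Algebra.IsSeparable k L := (Algebra.FormallyUnramified.iff_isSeparable k L).mp inferInstance
  have hint : IsAlgebraic k (g' j) := (Algebra.IsSeparable.isIntegral k (g' j)).isAlgebraic
  exact (isAlgebraic_algebraMap_iff (algebraMap L F).injective).mpr hint

end Pool.Agent.V1146.GF
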