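import Pool.Agent.V1146.GF.Rec

open Filter Topology

namespace Pool.Agent.V1146.GF

namespace TD

variable {V : Type} (D : TD V)

theorem γ_ne_zero (x : V) {z : ℂ} (hz : z ∈ upper) : D.γ x z ≠ 0 := by
  intro h
  have := D.γ_rec x hz
  rw [h] at this
  simp at this

theorem g_im_ge (S : Set V) (x : V) {z : ℂ} (hz : z ∈ upper) :
    z.im * ‖D.g S x z x‖ ^ 2 ≤ (D.g S x z x).im := by
  rw [D.g_im S x hz]
  exact mul_le_mul_of_nonneg_left (coord_sq_le _ _) (le_of_lt hz)

theorem g_norm_le (S : Set V) (x : V) {z : ℂ} (hz : z ∈ upper) :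
    ‖D.g S x z x‖ ≤ 1 / z.im := by
  have hz' : 0 < z.im := hz
  have h1 := D.g_im_ge S x hz
  have h2 : (D.g S x z x).im ≤ ‖D.g S x z x‖ := (le_abs_self _).trans (Complex.abs_im_le_norm _)
  rw [le_div_iff₀ hz']
  rcases eq_or_lt_of_le (norm_nonneg (D.g S x z x)) with h | h
  · rw [← h]; simp
  · have h3 : z.im * ‖D.g S x z x‖ ^ 2 ≤ ‖D.g S x z x‖ := h1.trans h2
    have h4 : (‖D.g S x z x‖ * z.im) * ‖D.g S x z x‖ ≤ 1 * ‖D.g S x z x‖ := by nlinarith
    exact le_of_mul_le_mul_right h4 h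

theorem γ_norm_le (x : V) {z : ℂ} (hz : z ∈ upper) : ‖D.γ x z‖ ≤ 1 / z.im := D.g_norm_le _ _ hz

theorem γ_im_pos (x : V) {z : ℂ} (hz : z ∈ upper) : 0 < (D.γ x z).im := by
  have h1 := D.g_im_ge (D.desc x) x hz
  have h2 : 0 < z.im * ‖D.γ x z‖ ^ 2 := by
    have : 0 < ‖D.γ x z‖ := norm_pos_iff.mpr (D.γ_ne_zero x hz)
    have hz' : 0 < z.im := hz
    positivity
  exact lt_of_lt_of_le h2 h1

theorem γ_diff (x : V) : DifferentiableOn ℂ (D.γ x) upper := D.g_diff _ _ _

theorem G_diff (x : V) : DifferentiableOn ℂ (D.G x) upper := D.g_diff _ _ _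

variable {ι : Type} [Fintype ι] [DecidableEq ι] (a : V → ι)
  (M : ι → ι → ℕ) (hM : ∀ x l, ((D.ch x).filter (fun y => a y = l)).card = M (a x) l)
  (k : ι → ι → ℝ) (hk : ∀ y, y ≠ D.o → ‖D.b y‖ ^ 2 = k (a (D.p y)) (a y))
  (m : ι → ℝ) (hm : ∀ x, D.w x = m (a x))

include hk in
theorem sum_children (x : V) (F : V → ℂ) :
    ∑ y ∈ D.ch x, ((‖D.b y‖ ^ 2 : ℝ) : ℂ) * F y =
      ∑ l, (k (a x) l : ℂ) * ∑ y ∈ (D.ch x).filter (fun y => a y = l), F y := by
  rw [← Finset.sum_fiberwise (D.ch x) a]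
  apply Finset.sum_congr rfl
  intro l _
  rw [Finset.mul_sum]
  apply Finset.sum_congr rfl
  intro y hy
  rw [Finset.mem_filter] at hy
  obtain ⟨hy1, hy2⟩ := (D.mem_ch x y).mp hy.1
  rw [hk y hy1, hy2, hy.2]

include hM hk

theorem sum_k_le (x : V) : ∑ l, (M (a x) l : ℝ) * |k (a x) l| ≤ D.K := by
  refine le_trans (le_of_eq ?_) (D.hb x)
  rw [← Finset.sum_fiberwise (D.ch x) a]
  apply Finset.sum_congr rfl
  intro l _
  rw [← hM x l]
  have : ∀ y ∈ (D.ch x).filter (fun y => a y = l), ‖D.b y‖ ^ 2 = |k (a x) l| := by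
    intro y hy
    rw [Finset.mem_filter] at hy
    obtain ⟨hy1, hy2⟩ := (D.mem_ch x y).mp hy.1
    have h1 := hk y hy1
    rw [hy2, hy.2] at h1
    rw [← h1, abs_of_nonneg (by positivity)]
  rw [Finset.sum_congr rfl this, Finset.sum_const, nsmul_eq_mul]

theorem label_diff (x x' : V) (h : a x = a x') (F : V → ℂ) (δ : ℝ)
    (hF : ∀ y y', a y = a y' → ‖F y - F y'‖ ≤ δ) :
    ‖∑ y ∈ D.ch x, ((‖D.b y‖ ^ 2 : ℝ) : ℂ) * F y - ∑ y ∈ D.ch x', ((‖D.b y‖ ^ 2 : ℝ) : ℂ) * F y‖ ≤
      D.K * δ := by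
  have hδ : 0 ≤ δ := by simpa using hF x x rfl
  rw [D.sum_children a k hk x F, D.sum_children a k hk x' F, ← h,
    ← Finset.sum_sub_distrib]
  calc _ ≤ ∑ l, ‖(k (a x) l : ℂ) * ∑ y ∈ (D.ch x).filter (fun y => a y = l), F y -
        (k (a x) l : ℂ) * ∑ y ∈ (D.ch x').filter (fun y => a y = l), F y‖ := norm_sum_le _ _
    _ ≤ ∑ l, (M (a x) l : ℝ) * |k (a x) l| * δ := by
        apply Finset.sum_le_sum
        intro l _
        rw [← mul_sub, norm_mul, Complex.norm_real, Real.norm_eq_abs]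
        have hcard : ((D.ch x).filter (fun y => a y = l)).card =
            ((D.ch x').filter (fun y => a y = l)).card := by rw [hM, hM, h]
        let e := Finset.equivOfCardEq hcard
        have h1 : ∑ y ∈ (D.ch x').filter (fun y => a y = l), F y =
            ∑ y : {y // y ∈ (D.ch x).filter (fun y => a y = l)}, F (e y) := by
          rw [← Finset.sum_coe_sort]
          exact (Equiv.sum_comp e (fun y => F y)).symm
        have h2 : ∑ y ∈ (D.ch x).filter (fun y => a y = l), F y =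
            ∑ y : {y // y ∈ (D.ch x).filter (fun y => a y = l)}, F y :=
          (Finset.sum_coe_sort _ _).symm
        have h3 : ‖∑ y ∈ (D.ch x).filter (fun y => a y = l), F y -
            ∑ y ∈ (D.ch x').filter (fun y => a y = l), F y‖ ≤ (M (a x) l : ℝ) * δ := by
          rw [h1, h2, ← Finset.sum_sub_distrib]
          refine (norm_sum_le _ _).trans ?_
          calc _ ≤ ∑ y : {y // y ∈ (D.ch x).filter (fun y => a y = l)}, δ := by
                apply Finset.sum_le_sum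
                intro y _
                apply hF
                rw [(Finset.mem_filter.mp y.2).2, (Finset.mem_filter.mp (e y).2).2]
            _ = _ := by
                rw [Finset.sum_const, Finset.card_univ, Fintype.card_coe, hM, nsmul_eq_mul]
        calc |k (a x) l| * _ ≤ |k (a x) l| * ((M (a x) l : ℝ) * δ) :=
              mul_le_mul_of_nonneg_left h3 (abs_nonneg _)
          _ = _ := by ring
    _ = (∑ l, (M (a x) l : ℝ) * |k (a x) l|) * δ := by rw [Finset.sum_mul]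
    _ ≤ _ := mul_le_mul_of_nonneg_right (D.sum_k_le a M hM k hk x) hδ

include hm

theorem label_inv_large {z : ℂ} (hz : z ∈ upper) (hzK : 2 * D.K ≤ z.im ^ 2) (n : ℕ) :
    ∀ x x', a x = a x' → ‖D.γ x z - D.γ x' z‖ ≤ 2 / z.im * (1 / 2) ^ n := by
  have hz' : 0 < z.im := hz
  induction n with
  | zero =>
    intro x x' _
    rw [pow_zero, mul_one]
    calc _ ≤ ‖D.γ x z‖ + ‖D.γ x' z‖ := norm_sub_le _ _
      _ ≤ 1 / z.im + 1 / z.im := add_le_add (D.γ_norm_le x hz) (D.γ_norm_le x' hz)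
      _ = _ := by ring
  | succ n ih =>
    intro x x' h
    have h1 := D.γ_rec x hz
    have h2 := D.γ_rec x' hz
    rw [hm x] at h1
    rw [hm x', ← h] at h2
    have h3 : D.γ x z - D.γ x' z = D.γ x z * D.γ x' z *
        (∑ y ∈ D.ch x, ((‖D.b y‖ ^ 2 : ℝ) : ℂ) * D.γ y z -
        ∑ y ∈ D.ch x', ((‖D.b y‖ ^ 2 : ℝ) : ℂ) * D.γ y z) := by
      linear_combination D.γ x' z * h1 - D.γ x z * h2
    rw [h3, norm_mul, norm_mul]
    have h4 := D.label_diff a M hM k hk x x' h (fun y => D.γ y z) _ ih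
    have h5 : ‖D.γ x z‖ * ‖D.γ x' z‖ ≤ 1 / z.im * (1 / z.im) :=
      mul_le_mul (D.γ_norm_le x hz) (D.γ_norm_le x' hz) (norm_nonneg _) (by positivity)
    have h6 : (0:ℝ) ≤ 2 / z.im * (1 / 2) ^ n := by positivity
    calc _ ≤ (1 / z.im * (1 / z.im)) * (D.K * (2 / z.im * (1 / 2) ^ n)) :=
          mul_le_mul h5 h4 (norm_nonneg _) (by positivity)
      _ ≤ (1 / z.im * (1 / z.im)) * ((z.im ^ 2 / 2) * (2 / z.im * (1 / 2) ^ n)) := by
          apply mul_le_mul_of_nonneg_left _ (by positivity)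
          apply mul_le_mul_of_nonneg_right _ h6
          linarith
      _ = _ := by
          field_simp
          ring

theorem label_inv {x x' : V} (h : a x = a x') {z : ℂ} (hz : z ∈ upper) :
    D.γ x z = D.γ x' z := by
  have h1 : ∀ z ∈ upper, 2 * D.K ≤ z.im ^ 2 → D.γ x z = D.γ x' z := by
    intro z hz hzK
    have h2 : Tendsto (fun n : ℕ => 2 / z.im * (1 / 2) ^ n) atTop (𝓝 0) := by
      have := (tendsto_pow_atTop_nhds_zero_of_lt_one (r := (1/2:ℝ)) (by norm_num)
        (by norm_num)).const_mul (2 / z.im)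
      simpa using this
    have h3 : ‖D.γ x z - D.γ x' z‖ ≤ 0 :=
      ge_of_tendsto' h2 (fun n => D.label_inv_large a M hM k hk m hm hz hzK n x x' h)
    have h4 := norm_eq_zero.mp (le_antisymm h3 (norm_nonneg _))
    exact sub_eq_zero.mp h4
  set R : ℝ := 2 * D.K + 2 with hR
  have hK := D.hK0
  have hev : D.γ x =ᶠ[𝓝 ((R : ℂ) * Complex.I)] D.γ x' := by
    have : ∀ᶠ w : ℂ in 𝓝 ((R : ℂ) * Complex.I), 2 * D.K + 1 < w.im := by
      apply (isOpen_lt continuous_const Complex.continuous_im).mem_nhds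
      simp [hR]
    filter_upwards [this] with w hw
    apply h1 w
    · show 0 < w.im
      linarith
    · nlinarith
  have hR0 : ((R : ℂ) * Complex.I) ∈ upper := by
    simp only [upper, Set.mem_ofPred_eq, Complex.mul_im, Complex.ofReal_re, Complex.I_im, mul_one,
      Complex.ofReal_im, Complex.I_re, mul_zero, add_zero]
    linarith
  exact ((D.γ_diff x).analyticOnNhd isOpen_upper).eqOn_of_preconnected_of_eventuallyEq
    ((D.γ_diff x').analyticOnNhd isOpen_upper) isPreconnected_upper hR0 hev hz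

variable (ha : Function.Surjective a) (hMd : ∀ l, 1 ≤ M l l) (hb0 : ∀ y, y ≠ D.o → D.b y ≠ 0)

include ha hMd hb0

theorem γ_boundary (x : V) (E : ℝ) : ∃ L, Tendsto (D.γ x) (𝓝[upper] (E : ℂ)) (𝓝 L) := by
  classical
  let rep : ι → V := Function.surjInv ha
  have hrep : ∀ l : ι, a (rep l) = l := Function.surjInv_eq ha
  let Γ : ι → ℂ → ℂ := fun l => D.γ (rep l)
  have hΓ : ∀ (y : V) (z : ℂ), z ∈ upper → D.γ y z = Γ (a y) z := by
    intro y z hz
    apply D.label_inv a M hM k hk m hm _ hz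
    rw [hrep]
  -- the recursion
  have hsum : ∀ (l : ι) (z : ℂ), z ∈ upper →
      ∑ y ∈ D.ch (rep l), ((‖D.b y‖ ^ 2 : ℝ) : ℂ) * D.γ y z =
      ∑ l' : ι, ((M l l' : ℂ) * (k l l' : ℂ)) * Γ l' z := by
    intro l z hz
    rw [D.sum_children a k hk, hrep]
    apply Finset.sum_congr rfl
    intro l' _
    have : ∀ y ∈ (D.ch (rep l)).filter (fun y => a y = l'), D.γ y z = Γ l' z := by
      intro y hy
      rw [hΓ y z hz, (Finset.mem_filter.mp hy).2]
    rw [Finset.sum_congr rfl this, Finset.sum_const, hM, nsmul_eq_mul, hrep]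
    ring
  have hsys : ∀ l : ι, ∀ z ∈ upper,
      Γ l z * ((m l : ℂ) - z - ∑ l', ((M l l' : ℂ) * (k l l' : ℂ)) * Γ l' z) = 1 := by
    intro l z hz
    have h := D.γ_rec (rep l) hz
    rw [hm, hrep, hsum l z hz] at h
    exact h
  -- positivity of the diagonal coefficient
  have hkpos : ∀ l l', 1 ≤ M l l' → 0 < k l l' := by
    intro l l' hl
    have h1 : 0 < ((D.ch (rep l)).filter (fun y => a y = l')).card := by
      rw [hM, hrep]
      exact hl
    obtain ⟨y, hy⟩ := Finset.card_pos.mp h1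
    rw [Finset.mem_filter] at hy
    obtain ⟨hy1, hy2⟩ := (D.mem_ch _ y).mp hy.1
    have h2 := hk y hy1
    rw [hy2, hrep, hy.2] at h2
    rw [← h2]
    have := norm_pos_iff.mpr (hb0 y hy1)
    positivity
  have hbound : ∀ l : ι, ∀ z ∈ upper, ‖Γ l z‖ ≤ Real.sqrt (1 / k l l) := by
    intro l z hz
    have hkl := hkpos l l (hMd l)
    apply Real.le_sqrt_of_sq_le
    rw [le_div_iff₀ hkl]
    have h := hsys l z hz
    set q : ℂ := (m l : ℂ) - z - ∑ l', ((M l l' : ℂ) * (k l l' : ℂ)) * Γ l' z with hq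
    have hpos : 0 < (Γ l z).im := D.γ_im_pos (rep l) hz
    have hqim : q.im ≤ -(k l l * (Γ l z).im) := by
      have h1 : q.im = - z.im - ∑ l', ((M l l' : ℝ) * k l l') * (Γ l' z).im := by
        rw [hq]
        simp only [Complex.sub_im, Complex.ofReal_im, Complex.im_sum, zero_sub]
        congr 1
        apply Finset.sum_congr rfl
        intro l' _
        have : ((M l l' : ℂ) * (k l l' : ℂ)) = (((M l l' : ℝ) * k l l' : ℝ) : ℂ) := by push_cast; rfl
        rw [this, Complex.im_ofReal_mul]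
      rw [h1]
      have h2 : k l l * (Γ l z).im ≤ ∑ l', ((M l l' : ℝ) * k l l') * (Γ l' z).im := by
        have h3 : ∀ l' ∈ Finset.univ, 0 ≤ ((M l l' : ℝ) * k l l') * (Γ l' z).im := by
          intro l' _
          rcases Nat.eq_zero_or_pos (M l l') with h0 | h0
          · rw [h0]; simp
          · have h5 := hkpos l l' h0
            have h6 : 0 < (Γ l' z).im := D.γ_im_pos (rep l') hz
            positivity
        refine le_trans ?_ (Finset.single_le_sum h3 (Finset.mem_univ l))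
        have h7 : (1:ℝ) ≤ (M l l : ℝ) := by exact_mod_cast hMd l
        have h8 : 0 ≤ k l l * (Γ l z).im := by positivity
        nlinarith
      have hz' : 0 < z.im := hz
      linarith
    -- q = conj Γ / |Γ|²
    have h9 : q * (Complex.normSq (Γ l z) : ℂ) = (starRingEnd ℂ) (Γ l z) := by
      rw [← Complex.mul_conj]
      linear_combination (starRingEnd ℂ) (Γ l z) * h
    have h10 := congrArg Complex.im h9
    rw [Complex.im_mul_ofReal, Complex.conj_im, Complex.normSq_eq_norm_sq] at h10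
    have h11 : 0 ≤ ‖Γ l z‖ ^ 2 := by positivity
    have h12 : (‖Γ l z‖ ^ 2 * k l l) * (Γ l z).im ≤ 1 * (Γ l z).im := by
      nlinarith [mul_le_mul_of_nonneg_right hqim h11]
    exact le_of_mul_le_mul_right h12 hpos
  have key := exists_boundary_value Γ (fun l l' => (M l l' : ℂ) * (k l l' : ℂ)) (fun l => (m l : ℂ))
    (fun l => D.γ_diff _) hsys (fun l z hz => D.γ_norm_le _ hz) _ hbound (a x) E
  obtain ⟨L, hL⟩ := key
  refine ⟨L, hL.congr' ?_⟩
  filter_upwards [self_mem_nhdsWithin] with z hz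
  exact (hΓ x z hz).symm

theorem G_boundary (x : V) (E : ℝ) : ∃ L, Tendsto (D.G x) (𝓝[upper] (E : ℂ)) (𝓝 L) := by
  have key : ∀ n : ℕ, ∀ x : V, D.p^[n] x = D.o →
      ∃ L, Tendsto (D.G x) (𝓝[upper] (E : ℂ)) (𝓝 L) := by
    have hbase : ∃ L, Tendsto (D.G D.o) (𝓝[upper] (E : ℂ)) (𝓝 L) := by
      have h := D.γ_boundary a M hM k hk m hm ha hMd hb0 D.o E
      have : D.γ D.o = D.G D.o := by
        funext z
        unfold γ G
        rw [D.desc_o]
      rwa [this] at h
    intro n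
    induction n with
    | zero =>
      intro x hx
      have : x = D.o := hx
      rw [this]
      exact hbase
    | succ n ih =>
      intro x hx
      by_cases hxo : x = D.o
      · rw [hxo]; exact hbase
      · obtain ⟨L1, h1⟩ := ih (D.p x) (by rwa [← Function.iterate_succ_apply])
        obtain ⟨L2, h2⟩ := D.γ_boundary a M hM k hk m hm ha hMd hb0 x E
        refine ⟨L2 + ((‖D.b x‖ ^ 2 : ℝ) : ℂ) * L2 ^ 2 * L1, ?_⟩
        have h3 := h2.add (((h2.pow 2).const_mul ((‖D.b x‖ ^ 2 : ℝ) : ℂ)).mul h1)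
        refine h3.congr' ?_
        filter_upwards [self_mem_nhdsWithin] with z hz
        exact (D.G_rec hxo hz).symm
  obtain ⟨n, hn⟩ := D.reach x
  exact key n x hn

end TD

end Pool.Agent.V1146.GF
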