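import Pool.Agent.V1146.GF.Poly

open Polynomial Filter Topology

namespace Pool.Agent.V1146.GF

theorem factor_out (P : ℂ[X][X]) (hP : P ≠ 0) (E : ℂ) :
    ∃ (m : ℕ) (Q : ℂ[X][X]), P = (C (X - C E)) ^ m * Q ∧ Q.map (evalRingHom E) ≠ 0 := by
  obtain ⟨m, Q, h1, h2⟩ := WfDvdMonoid.max_power_factor' (x := (C (X - C E) : ℂ[X][X])) hP
    (by rw [Polynomial.isUnit_C]; exact Polynomial.not_isUnit_X_sub_C E)
  refine ⟨m, Q, h2, ?_⟩
  intro h
  apply h1
  rw [C_dvd_iff_dvd_coeff]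
  intro i
  have := congrArg (fun q => q.coeff i) h
  simp only [coeff_map, coeff_zero, coe_evalRingHom] at this
  exact dvd_iff_isRoot.mpr this

theorem closure_upper_real (E : ℝ) : (E : ℂ) ∈ closure upper := by
  rw [Metric.mem_closure_iff]
  intro ε hε
  refine ⟨(E : ℂ) + ((ε / 2 : ℝ) : ℂ) * Complex.I, ?_, ?_⟩
  · simp [upper, hε]
  · rw [dist_eq_norm]
    simp only [sub_add_cancel_left, norm_neg, norm_mul, Complex.norm_real, Complex.norm_I, mul_one]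
    rw [Real.norm_eq_abs, abs_of_pos (by positivity)]
    linarith

theorem exists_limit (f : ℂ → ℂ) (hf : ContinuousOn f upper) (c : ℝ)
    (hc : ∀ z ∈ upper, ‖f z‖ ≤ c) (P : ℂ[X][X]) (hP : P ≠ 0)
    (hPf : ∀ z ∈ upper, P.evalEval z (f z) = 0) (E : ℝ) :
    ∃ L, Tendsto f (𝓝[upper] (E : ℂ)) (𝓝 L) := by
  obtain ⟨m, Q, hPQ, hQ⟩ := factor_out P hP (E : ℂ)
  have hQf : ∀ z ∈ upper, Q.evalEval z (f z) = 0 := by
    intro z hz
    have h := hPf z hz
    rw [hPQ, evalEval_mul, evalEval_pow, evalEval_C] at h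
    rcases mul_eq_zero.mp h with h | h
    · exfalso
      have h2 := eq_zero_of_pow_eq_zero h
      simp only [eval_sub, eval_X, eval_C] at h2
      have h3 : z = (E : ℂ) := sub_eq_zero.mp h2
      rw [h3] at hz
      simp [upper] at hz
    · exact h
  -- a sequence approaching E
  have hE := closure_upper_real E
  have key : ∀ (w : ℂ) (z : ℕ → ℂ), (∀ n, z n ∈ upper) → Tendsto z atTop (𝓝 (E : ℂ)) →
      Tendsto (fun n => f (z n)) atTop (𝓝 w) → (Q.map (evalRingHom (E : ℂ))).eval w = 0 := by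
    intro w z hz hzE hzw
    rw [map_evalRingHom_eval]
    have h1 : Tendsto (fun n => Q.evalEval (z n) (f (z n))) atTop (𝓝 (Q.evalEval (E : ℂ) w)) :=
      ((evalEval_continuous Q).tendsto ((E : ℂ), w)).comp (hzE.prodMk_nhds hzw)
    have h2 : (fun n => Q.evalEval (z n) (f (z n))) = fun _ => 0 := by
      funext n
      exact hQf _ (hz n)
    rw [h2] at h1
    exact (tendsto_nhds_unique h1 tendsto_const_nhds)
  obtain ⟨z₀, hz₀, hz₀E⟩ := mem_closure_iff_seq_limit.mp hE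
  obtain ⟨L, -, ψ, hψ, hL⟩ := (isCompact_closedBall (0 : ℂ) c).tendsto_subseq
    (x := fun n => f (z₀ n)) (fun n => by simpa using hc _ (hz₀ n))
  refine ⟨L, ?_⟩
  rw [Metric.tendsto_nhdsWithin_nhds]
  by_contra hcon
  push Not at hcon
  obtain ⟨ε, hε, hcon⟩ := hcon
  -- choose the radius
  set q := Q.map (evalRingHom (E : ℂ)) with hq
  have hfin : ((fun w => ‖w - L‖) '' {w | q.eval w = 0}).Finite := by
    apply Set.Finite.image
    refine (q.rootSet_finite ℂ).subset ?_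
    intro w hw
    rw [Polynomial.mem_rootSet]
    exact ⟨hQ, by simpa [Polynomial.aeval_def] using hw⟩
  obtain ⟨r, hr, hrn⟩ := (Set.Ioo_infinite hε).exists_notMem_finite hfin
  have hex : ∀ n : ℕ, ∃ z ∈ upper, dist z (E : ℂ) < 1 / ((n : ℝ) + 1) ∧ ‖f z - L‖ = r := by
    intro n
    have hn : (0 : ℝ) < 1 / ((n : ℝ) + 1) := by positivity
    set D := Metric.ball (E : ℂ) (1 / ((n : ℝ) + 1)) ∩ upper with hD
    have hDc : IsPreconnected D := ((convex_ball _ _).inter convex_upper).isPreconnected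
    obtain ⟨z2, hz2U, hz2d, hz2⟩ := hcon _ hn
    have hev1 : ∀ᶠ k in atTop, dist (z₀ (ψ k)) (E : ℂ) < 1 / ((n : ℝ) + 1) :=
      (Metric.tendsto_nhds.mp (hz₀E.comp hψ.tendsto_atTop)) _ hn
    have hev2 : ∀ᶠ k in atTop, dist (f (z₀ (ψ k))) L < r :=
      (Metric.tendsto_nhds.mp hL) _ hr.1
    obtain ⟨k, hk1, hk2⟩ := (hev1.and hev2).exists
    have hg : ContinuousOn (fun z => ‖f z - L‖) D :=
      ((hf.mono Set.inter_subset_right).sub continuousOn_const).norm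
    have hiv := hDc.intermediate_value (a := z₀ (ψ k)) (b := z2) ⟨hk1, hz₀ _⟩ ⟨hz2d, hz2U⟩ hg
    have hrm : r ∈ Set.Icc ‖f (z₀ (ψ k)) - L‖ ‖f z2 - L‖ := by
      rw [dist_eq_norm] at hk2 hz2
      exact ⟨hk2.le, hr.2.le.trans hz2⟩
    obtain ⟨z, hzD, hz⟩ := hiv hrm
    exact ⟨z, hzD.2, hzD.1, hz⟩
  choose z hzU hzd hzr using hex
  have hzE : Tendsto z atTop (𝓝 (E : ℂ)) := by
    rw [tendsto_iff_dist_tendsto_zero]
    exact squeeze_zero (fun _ => dist_nonneg) (fun n => (hzd n).le)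
      tendsto_one_div_add_atTop_nhds_zero_nat
  obtain ⟨w, hw, χ, hχ, hwL⟩ := (isCompact_sphere L r).tendsto_subseq
    (x := fun n => f (z n)) (fun n => by simpa [dist_eq_norm] using hzr n)
  have h0 := key w (z ∘ χ) (fun n => hzU _) (hzE.comp hχ.tendsto_atTop) hwL
  apply hrn
  refine ⟨w, h0, ?_⟩
  simpa [dist_eq_norm] using hw

theorem exists_boundary_value {ι : Type} [Fintype ι] [DecidableEq ι] (Γ : ι → ℂ → ℂ)
    (K : ι → ι → ℂ) (w : ι → ℂ) (hΓ : ∀ j, DifferentiableOn ℂ (Γ j) upper)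
    (hsys : ∀ j, ∀ z ∈ upper, Γ j z * (w j - z - ∑ l, K j l * Γ l z) = 1)
    (hbd : ∀ j, ∀ z ∈ upper, ‖Γ j z‖ ≤ 1 / z.im) (c : ι → ℝ)
    (hc : ∀ j, ∀ z ∈ upper, ‖Γ j z‖ ≤ c j) (j : ι) (E : ℝ) :
    ∃ L, Tendsto (Γ j) (𝓝[upper] (E : ℂ)) (𝓝 L) := by
  obtain ⟨P, hP, hPf⟩ := exists_poly Γ K w hΓ hsys hbd j
  exact exists_limit (Γ j) (hΓ j).continuousOn (c j) (hc j) P hP hPf E

end Pool.Agent.V1146.GF
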