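import Mathlib

open Filter Topology

namespace Pool.Agent.V1146.GF

/-- square summable functions -/
noncomputable abbrev HH (V : Type) := lp (fun _ : V => ℂ) 2

variable {V : Type}

theorem hasSum_sq (f : HH V) : HasSum (fun x => ‖f x‖ ^ 2) (‖f‖ ^ 2) := by
  have h := lp.hasSum_norm (p := 2) (by norm_num) f
  simpa [ENNReal.toReal_ofNat, Real.rpow_two] using h

theorem memlp_of_summable {f : V → ℂ} (h : Summable fun x => ‖f x‖ ^ 2) : Memℓp f 2 := by
  rw [memℓp_gen_iff (by norm_num)]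
  simpa [ENNReal.toReal_ofNat, Real.rpow_two] using h

theorem sum_sq_le (f : HH V) (F : Finset V) : ∑ x ∈ F, ‖f x‖ ^ 2 ≤ ‖f‖ ^ 2 :=
  sum_le_hasSum F (fun _ _ => by positivity) (hasSum_sq f)

theorem coord_sq_le (f : HH V) (x : V) : ‖f x‖ ^ 2 ≤ ‖f‖ ^ 2 := by
  simpa using sum_sq_le f {x}

open scoped Classical in
theorem comp_sum_le (p : V → V) (c : V → ℂ) (K : ℝ) (hK0 : 0 ≤ K)
    (hK : ∀ (y : V) (F : Finset V), ∑ x ∈ F with p x = y, ‖c x‖ ^ 2 ≤ K) (G : V → ℝ)
    (hG : ∀ y, 0 ≤ G y) (S : ℝ) (hS : ∀ F : Finset V, ∑ y ∈ F, G y ≤ S)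
    (F : Finset V) : ∑ x ∈ F, ‖c x‖ ^ 2 * G (p x) ≤ K * S := by
  have h1 : ∑ x ∈ F, ‖c x‖ ^ 2 * G (p x) =
      ∑ y ∈ F.image p, ∑ x ∈ F with p x = y, ‖c x‖ ^ 2 * G (p x) := by
    refine (Finset.sum_fiberwise_of_maps_to (g := p) (fun x hx => ?_) _).symm
    exact Finset.mem_image_of_mem p hx
  rw [h1]
  have h2 : ∀ y ∈ F.image p, ∑ x ∈ F with p x = y, ‖c x‖ ^ 2 * G (p x) ≤ K * G y := by
    intro y _
    have : ∑ x ∈ F with p x = y, ‖c x‖ ^ 2 * G (p x) =
        (∑ x ∈ F with p x = y, ‖c x‖ ^ 2) * G y := by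
      rw [Finset.sum_mul]
      apply Finset.sum_congr rfl
      intro x hx
      rw [(Finset.mem_filter.mp hx).2]
    rw [this]
    exact mul_le_mul_of_nonneg_right (hK y F) (hG y)
  calc _ ≤ ∑ y ∈ F.image p, K * G y := Finset.sum_le_sum h2
    _ = K * ∑ y ∈ F.image p, G y := by rw [Finset.mul_sum]
    _ ≤ _ := mul_le_mul_of_nonneg_left (hS _) hK0

open scoped Classical in
theorem wc_sum_le (p : V → V) (c : V → ℂ) (K : ℝ) (hK0 : 0 ≤ K)
    (hK : ∀ (y : V) (F : Finset V), ∑ x ∈ F with p x = y, ‖c x‖ ^ 2 ≤ K) (f : HH V)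
    (F : Finset V) : ∑ x ∈ F, ‖c x * f (p x)‖ ^ 2 ≤ K * ‖f‖ ^ 2 := by
  have := comp_sum_le p c K hK0 hK (fun y => ‖f y‖ ^ 2) (fun _ => by positivity) (‖f‖ ^ 2)
    (sum_sq_le f) F
  simpa [mul_pow] using this

open scoped Classical in
/-- weighted composition operator `f ↦ c · (f ∘ p)` -/
noncomputable def wc (p : V → V) (c : V → ℂ) (K : ℝ) (hK0 : 0 ≤ K)
    (hK : ∀ (y : V) (F : Finset V), ∑ x ∈ F with p x = y, ‖c x‖ ^ 2 ≤ K) : HH V →L[ℂ] HH V :=
  LinearMap.mkContinuous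
    { toFun := fun f => ⟨fun x => c x * f (p x), memlp_of_summable
        (summable_of_sum_le (fun _ => by positivity) (wc_sum_le p c K hK0 hK f))⟩
      map_add' := by
        intro f g
        ext x
        simp [mul_add]
      map_smul' := by
        intro r f
        ext x
        simp [mul_left_comm] }
    (Real.sqrt K) (by
      intro f
      have hs := hasSum_sq (⟨fun x => c x * f (p x), memlp_of_summable
        (summable_of_sum_le (fun _ => by positivity) (wc_sum_le p c K hK0 hK f))⟩ : HH V)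
      have h1 := hs.tsum_eq ▸ Summable.tsum_le_of_sum_le hs.summable (wc_sum_le p c K hK0 hK f)
      simp only [LinearMap.coe_mk, AddHom.coe_mk]
      apply le_of_sq_le_sq _ (by positivity)
      rw [mul_pow, Real.sq_sqrt hK0]
      exact h1)

theorem wc_apply (p : V → V) (c : V → ℂ) (K : ℝ) (hK0 : 0 ≤ K) (hK) (f : HH V) (x : V) :
    wc p c K hK0 hK f x = c x * f (p x) := rfl

open scoped Classical in
theorem wc_adjoint_apply (p : V → V) (c : V → ℂ) (K : ℝ) (hK0 : 0 ≤ K) (hK) (f : HH V) (y : V) (F : Finset V)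
    (hF1 : ∀ x ∈ F, p x = y) (hF2 : ∀ x, p x = y → c x ≠ 0 → x ∈ F) :
    (ContinuousLinearMap.adjoint (wc p c K hK0 hK) f) y = ∑ x ∈ F, (starRingEnd ℂ) (c x) * f x := by
  have h1 : inner ℂ (lp.single 2 y (1:ℂ)) (ContinuousLinearMap.adjoint (wc p c K hK0 hK) f) =
      (ContinuousLinearMap.adjoint (wc p c K hK0 hK) f) y := by
    rw [lp.inner_single_left]
    simp
  rw [← h1, ContinuousLinearMap.adjoint_inner_right, lp.inner_eq_tsum, tsum_eq_sum (s := F)]
  · apply Finset.sum_congr rfl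
    intro x hx
    rw [wc_apply, hF1 x hx]
    simp [mul_comm]
  · intro x hx
    rw [wc_apply]
    by_cases hp : p x = y
    · have : c x = 0 := by
        by_contra h
        exact hx (hF2 x hp h)
      simp [this]
    · rw [lp.single_apply_ne _ _ _ hp]
      simp

end Pool.Agent.V1146.GF
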