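import Pool.Agent.V1146.GF.Alg

open Polynomial Filter Topology

namespace Pool.Agent.V1146.GF

/-- The open upper half-plane. -/
def upper : Set ℂ := {z | 0 < z.im}

theorem isOpen_upper : IsOpen upper := isOpen_lt continuous_const Complex.continuous_im

theorem convex_upper : Convex ℝ upper := by
  intro x hx y hy a b ha hb hab
  simp only [upper, Set.mem_ofPred_eq, Complex.add_im, Complex.real_smul, Complex.mul_im,
    Complex.ofReal_re, Complex.ofReal_im, zero_mul, add_zero] at *
  rcases eq_or_lt_of_le ha with h | h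
  · subst h
    rw [zero_add] at hab
    subst hab
    simpa using hy
  · nlinarith [mul_pos h hx, mul_nonneg hb hy.le]

theorem isPreconnected_upper : IsPreconnected upper := convex_upper.isPreconnected

/-- ring map from polynomials to germs -/
noncomputable def polyGerm (φ : Ultrafilter ℂ) : ℂ[X] →+* Filter.Germ (φ : Filter ℂ) ℂ :=
  (Filter.Germ.coeRingHom (φ : Filter ℂ)).comp (RingHom.pi fun z => Polynomial.evalRingHom z)

theorem polyGerm_apply (φ : Ultrafilter ℂ) (p : ℂ[X]) :
    polyGerm φ p = Filter.Germ.coeRingHom (φ : Filter ℂ) (fun z => p.eval z) := rfl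

theorem germ_eq_zero (φ : Ultrafilter ℂ) (f : ℂ → ℂ) :
    Filter.Germ.coeRingHom (φ : Filter ℂ) f = 0 ↔ ∀ᶠ z in (φ : Filter ℂ), f z = 0 := by
  rw [← map_zero (Filter.Germ.coeRingHom (φ : Filter ℂ))]
  exact Filter.Germ.coe_eq

theorem germ_eq (φ : Ultrafilter ℂ) (f g : ℂ → ℂ) :
    Filter.Germ.coeRingHom (φ : Filter ℂ) f = Filter.Germ.coeRingHom (φ : Filter ℂ) g ↔
      ∀ᶠ z in (φ : Filter ℂ), f z = g z := Filter.Germ.coe_eq

theorem polyGerm_injective (φ : Ultrafilter ℂ) (z0 : ℂ) (hφ : (φ : Filter ℂ) ≤ 𝓝[≠] z0) :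
    Function.Injective (polyGerm φ) := by
  rw [injective_iff_map_eq_zero]
  intro p hp
  rw [polyGerm_apply, germ_eq_zero] at hp
  by_contra hne
  have h1 : ∀ᶠ z in 𝓝[≠] z0, p.eval z ≠ 0 := by
    have hfin : (p.rootSet ℂ).Finite := Polynomial.rootSet_finite p ℂ
    have : ((p.rootSet ℂ) \ {z0}).Finite := hfin.subset Set.sdiff_subset
    have h2 : ((p.rootSet ℂ) \ {z0})ᶜ ∈ 𝓝 z0 := this.isClosed.isOpen_compl.mem_nhds (by simp)
    rw [eventually_nhdsWithin_iff]
    filter_upwards [h2] with z hz hz0 h0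
    apply hz
    refine ⟨?_, hz0⟩
    rw [Polynomial.mem_rootSet]
    refine ⟨hne, ?_⟩
    simpa [Polynomial.aeval_def] using h0
  have h3 := hp.and (h1.filter_mono hφ)
  obtain ⟨z, h4, h5⟩ := h3.exists
  exact h5 h4

theorem evalEval_differentiableOn (P : ℂ[X][X]) {f : ℂ → ℂ} {s : Set ℂ}
    (hf : DifferentiableOn ℂ f s) :
    DifferentiableOn ℂ (fun z => P.evalEval z (f z)) s := by
  induction P using Polynomial.induction_on with
  | C a =>
    simp only [evalEval_C]
    exact a.differentiable.differentiableOn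
  | add p q hp hq =>
    simp only [evalEval_add]
    exact hp.add hq
  | monomial n a h =>
    simp only [evalEval_mul, evalEval_pow, evalEval_X, evalEval_C]
    exact a.differentiable.differentiableOn.mul (hf.pow _)

theorem evalEval_continuous (P : ℂ[X][X]) :
    Continuous (fun z : ℂ × ℂ => P.evalEval z.1 z.2) := by
  induction P using Polynomial.induction_on with
  | C a =>
    simp only [evalEval_C]
    exact a.continuous.comp continuous_fst
  | add p q hp hq =>
    simp only [evalEval_add]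
    exact hp.add hq
  | monomial n a h =>
    simp only [evalEval_mul, evalEval_pow, evalEval_X, evalEval_C]
    exact (a.continuous.comp continuous_fst).mul (continuous_snd.pow _)

theorem aeval_germ (φ : Ultrafilter ℂ) (P : ℂ[X][X]) (f : ℂ → ℂ) :
    P.eval₂ (polyGerm φ) (Filter.Germ.coeRingHom (φ : Filter ℂ) f) =
      Filter.Germ.coeRingHom (φ : Filter ℂ) (fun z => P.evalEval z (f z)) := by
  induction P using Polynomial.induction_on with
  | C a =>
    simp only [evalEval_C, eval₂_C]
    rfl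
  | add p q hp hq =>
    simp only [evalEval_add, eval₂_add, hp, hq]
    rw [← map_add]
    rfl
  | monomial n a h =>
    simp only [evalEval_mul, evalEval_pow, evalEval_X, evalEval_C, eval₂_mul, eval₂_C, eval₂_pow,
      eval₂_X]
    rw [polyGerm_apply, ← map_pow, ← map_mul]
    rfl

theorem exists_poly {ι : Type} [Fintype ι] [DecidableEq ι] (Γ : ι → ℂ → ℂ) (K : ι → ι → ℂ)
    (w : ι → ℂ) (hΓ : ∀ j, DifferentiableOn ℂ (Γ j) upper)
    (hsys : ∀ j, ∀ z ∈ upper, Γ j z * (w j - z - ∑ l, K j l * Γ l z) = 1)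
    (hbd : ∀ j, ∀ z ∈ upper, ‖Γ j z‖ ≤ 1 / z.im) (j : ι) :
    ∃ P : ℂ[X][X], P ≠ 0 ∧ ∀ z ∈ upper, P.evalEval z (Γ j z) = 0 := by
  classical
  -- the matrix
  let B : ℂ → Matrix ι ι ℂ := fun z => Matrix.of fun j l => (if j = l then (1:ℂ) else 0) -
    (Γ j z) ^ 2 * K j l
  have hBlim : Tendsto (fun R : ℝ => (B (R * Complex.I)).det) atTop (𝓝 1) := by
    have h1 : Tendsto (fun R : ℝ => B (R * Complex.I)) atTop (𝓝 (1 : Matrix ι ι ℂ)) := by
      apply tendsto_pi_nhds.mpr
      intro a
      apply tendsto_pi_nhds.mpr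
      intro b
      have h2 : Tendsto (fun R : ℝ => (Γ a (R * Complex.I))) atTop (𝓝 0) := by
        rw [tendsto_zero_iff_norm_tendsto_zero]
        refine squeeze_zero' (g := fun R : ℝ => 1 / R) (Eventually.of_forall fun _ => norm_nonneg _)
          ?_ ?_
        · filter_upwards [eventually_gt_atTop 0] with R hR
          have : ((R : ℂ) * Complex.I) ∈ upper := by simp [upper, hR]
          have h3 := hbd a _ this
          simpa using h3
        · simpa using tendsto_inv_atTop_zero
      have h3 := ((h2.pow 2).mul_const (K a b)).const_sub (if a = b then (1:ℂ) else 0)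
      simpa [B, Matrix.one_apply] using h3
    have h2 := (Continuous.matrix_det continuous_id).tendsto (1 : Matrix ι ι ℂ)
    simp only [id, Matrix.det_one] at h2
    exact h2.comp h1
  have hev : ∀ᶠ R : ℝ in atTop, (B (R * Complex.I)).det ≠ 0 :=
    hBlim.eventually_ne one_ne_zero
  obtain ⟨R, hR0, hRdet⟩ := ((eventually_gt_atTop (0:ℝ)).and hev).exists
  set z0 : ℂ := (R : ℂ) * Complex.I with hz0
  have hz0U : z0 ∈ upper := by simp [upper, hz0, hR0]
  have hUn : upper ∈ 𝓝 z0 := isOpen_upper.mem_nhds hz0U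
  have hdetcont : ContinuousAt (fun z => (B z).det) z0 := by
    have : ContinuousAt B z0 := by
      apply continuousAt_pi.mpr
      intro a
      apply continuousAt_pi.mpr
      intro b
      have h1 : ContinuousAt (Γ a) z0 := ((hΓ a).differentiableAt hUn).continuousAt
      exact continuousAt_const.sub ((h1.pow 2).mul continuousAt_const)
    exact (Continuous.matrix_det continuous_id).continuousAt.comp this
  have hdetev : ∀ᶠ z in 𝓝 z0, (B z).det ≠ 0 := hdetcont.eventually_ne hRdet
  -- ultrafilter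
  let φ : Ultrafilter ℂ := Ultrafilter.of (𝓝[≠] z0)
  have hφ : (φ : Filter ℂ) ≤ 𝓝[≠] z0 := Ultrafilter.of_le _
  have hφ' : (φ : Filter ℂ) ≤ 𝓝 z0 := hφ.trans nhdsWithin_le_nhds
  let c := Filter.Germ.coeRingHom (φ : Filter ℂ) (R := ℂ)
  let _ : Algebra ℂ[X] (Filter.Germ (φ : Filter ℂ) ℂ) := (polyGerm φ).toAlgebra
  have halg : ∀ p : ℂ[X], algebraMap ℂ[X] (Filter.Germ (φ : Filter ℂ) ℂ) p =
    c (fun z => p.eval z) := fun p => rfl
  have : FaithfulSMul ℂ[X] (Filter.Germ (φ : Filter ℂ) ℂ) :=
    (faithfulSMul_iff_algebraMap_injective _ _).mpr (polyGerm_injective φ z0 hφ)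
  let _ : Algebra (FractionRing ℂ[X]) (Filter.Germ (φ : Filter ℂ) ℂ) :=
    FractionRing.liftAlgebra ℂ[X] _
  have : IsScalarTower ℂ[X] (FractionRing ℂ[X]) (Filter.Germ (φ : Filter ℂ) ℂ) :=
    FractionRing.isScalarTower_liftAlgebra ℂ[X] _
  have halg2 : ∀ p : ℂ[X], algebraMap (FractionRing ℂ[X]) (Filter.Germ (φ : Filter ℂ) ℂ)
      (algebraMap ℂ[X] (FractionRing ℂ[X]) p) = c (fun z => p.eval z) := by
    intro p
    rw [← IsScalarTower.algebraMap_apply, halg]
  have key := isAlgebraic_of_system (k := FractionRing ℂ[X]) (F := Filter.Germ (φ : Filter ℂ) ℂ)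
    (g := fun j => c (Γ j)) (K := fun j l => algebraMap ℂ[X] _ (C (K j l)))
    (h := fun j => algebraMap ℂ[X] _ (C (w j) - X)) ?_ ?_ j
  · rw [← IsFractionRing.isAlgebraic_iff ℂ[X] (FractionRing ℂ[X])] at key
    obtain ⟨P, hP, hP0⟩ := key
    refine ⟨P, hP, ?_⟩
    have h1 : c (fun z => P.evalEval z (Γ j z)) = 0 := by
      rw [← hP0]
      exact (aeval_germ φ P (Γ j)).symm
    rw [germ_eq_zero] at h1
    have h2 : ∃ᶠ z in 𝓝[≠] z0, P.evalEval z (Γ j z) = 0 := by
      intro h3
      obtain ⟨z, h4, h5⟩ := (h1.and (h3.filter_mono hφ)).exists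
      exact h5 h4
    have h3 : AnalyticOnNhd ℂ (fun z => P.evalEval z (Γ j z)) upper :=
      (evalEval_differentiableOn P (hΓ j)).analyticOnNhd isOpen_upper
    exact h3.eqOn_zero_of_preconnected_of_frequently_eq_zero isPreconnected_upper hz0U h2
  · intro j
    simp only [halg2]
    rw [show (1 : Filter.Germ (φ : Filter ℂ) ℂ) = c 1 from (map_one c).symm]
    simp only [← map_mul, ← map_sum, ← map_sub]
    rw [germ_eq]
    filter_upwards [hφ' hUn] with z hz
    have := hsys j z hz
    simpa [Finset.sum_apply] using this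
  · simp only [halg2]
    have h1 : (Matrix.of fun j l => (if j = l then (1 : Filter.Germ (φ : Filter ℂ) ℂ) else 0) -
        c (Γ j) ^ 2 * c (fun z => (C (K j l)).eval z)) = c.mapMatrix
        (Matrix.of fun j l => (if j = l then (1 : ℂ → ℂ) else 0) -
        (Γ j) ^ 2 * (fun z => (C (K j l)).eval z)) := by
      ext a b
      simp only [Matrix.of_apply, RingHom.mapMatrix_apply, Matrix.map_apply, map_sub, map_mul,
        map_pow]
      congr 1
      split_ifs <;> simp
    rw [h1, ← RingHom.map_det]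
    intro h0
    rw [germ_eq_zero] at h0
    obtain ⟨z, h4, h5⟩ := (h0.and (hdetev.filter_mono hφ')).exists
    apply h5
    rw [← h4]
    have := RingHom.map_det (Pi.evalRingHom (fun _ : ℂ => ℂ) z)
      (Matrix.of fun j l => (if j = l then (1 : ℂ → ℂ) else 0) -
        (Γ j) ^ 2 * (fun z => (C (K j l)).eval z))
    simp only [Pi.evalRingHom_apply] at this
    rw [this]
    congr 1
    ext a b
    simp only [B, Matrix.of_apply, RingHom.mapMatrix_apply, Matrix.map_apply]
    by_cases hab : a = b <;> simp [hab]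

end Pool.Agent.V1146.GF
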