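import Pool.Agent.V1146.GF.Tree

open Filter Topology

namespace Pool.Agent.V1146.GF

namespace TD

variable {V : Type} (D : TD V)

theorem self_mem_desc (x : V) : x ∈ D.desc x := ⟨0, rfl⟩

theorem iter_o (n : ℕ) : D.p^[n] D.o = D.o := Function.iterate_fixed D.po n

theorem desc_o : D.desc D.o = Set.univ := by
  ext y
  simp only [Set.mem_univ, iff_true]
  exact D.reach y

theorem p_notMem_desc {x : V} (hx : x ≠ D.o) : D.p x ∉ D.desc x := by
  rintro ⟨n, hn⟩
  rw [← Function.iterate_succ_apply] at hn
  obtain ⟨k, hk⟩ := D.reach x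
  have h1 : (D.p^[n + 1])^[k] x = x := Function.iterate_fixed hn k
  rw [← Function.iterate_mul, add_mul, one_mul, Function.iterate_add_apply, hk, D.iter_o] at h1
  exact hx h1.symm

theorem p_mem_desc {v x : V} (hv : v ∈ D.desc x) (hne : v ≠ x) : D.p v ∈ D.desc x := by
  obtain ⟨n, hn⟩ := hv
  cases n with
  | zero => exact absurd hn hne
  | succ n => exact ⟨n, by rwa [← Function.iterate_succ_apply]⟩

theorem mem_desc_of_p {v x : V} (h : D.p v ∈ D.desc x) : v ∈ D.desc x := by
  obtain ⟨n, hn⟩ := h
  exact ⟨n + 1, by rwa [Function.iterate_succ_apply]⟩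

theorem ne_o_of_mem_desc {v x : V} (hx : x ≠ D.o) (hv : v ∈ D.desc x) : v ≠ D.o := by
  rintro rfl
  obtain ⟨n, hn⟩ := hv
  rw [D.iter_o] at hn
  exact hx hn.symm

theorem desc_subset {x y : V} (hy : D.p y = x) : D.desc y ⊆ D.desc x := by
  rintro v ⟨n, hn⟩
  refine ⟨n + 1, ?_⟩
  rw [Function.iterate_succ_apply', hn, hy]

open Classical in
/-- restriction of a vector to a set -/
noncomputable def res (S : Set V) (f : HH V) : HH V :=
  ⟨fun v => if v ∈ S then f v else 0, memlp_of_summable (by
    refine Summable.of_nonneg_of_le (fun _ => by positivity) ?_ (hasSum_sq f).summable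
    intro v
    split_ifs
    · exact le_rfl
    · simp)⟩

open Classical in
theorem res_apply (S : Set V) (f : HH V) (v : V) : res S f v = if v ∈ S then f v else 0 := rfl

theorem restrict (S : Set V) {y : V} (hy : y ≠ D.o) (hSy : D.desc y ⊆ S) (hpy : D.p y ∈ S)
    (f : HH V) {z : ℂ} (hz : z ∈ upper) (h0 : ∀ v ∈ D.desc y, D.A S f v - z * f v = 0) :
    res (D.desc y) f = (-(D.b y) * f (D.p y)) • D.g (D.desc y) y z := by
  classical
  apply D.g_unique _ _ hz
  ext v
  have hL : (D.A (D.desc y) (res (D.desc y) f) - z • res (D.desc y) f) v =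
    D.A (D.desc y) (res (D.desc y) f) v - z * res (D.desc y) f v := rfl
  have hR : ((-(D.b y) * f (D.p y)) • (lp.single 2 y (1:ℂ) : HH V)) v =
    (-(D.b y) * f (D.p y)) * (lp.single 2 y (1:ℂ) : HH V) v := rfl
  rw [hL, hR, A_apply]
  by_cases hv : v ∈ D.desc y
  · have hch : ∀ c ∈ D.ch v, (starRingEnd ℂ) (D.cS (D.desc y) c) * res (D.desc y) f c =
        (starRingEnd ℂ) (D.cS S c) * f c := by
      intro c hc
      obtain ⟨hc1, hc2⟩ := (D.mem_ch v c).mp hc
      have hcd : c ∈ D.desc y := D.mem_desc_of_p (by rw [hc2]; exact hv)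
      have h1 : D.cS (D.desc y) c = D.b c := by
        unfold cS
        rw [if_pos ⟨hc1, hcd, by rw [hc2]; exact hv⟩]
      have h2 : D.cS S c = D.b c := by
        unfold cS
        rw [if_pos ⟨hc1, hSy hcd, by rw [hc2]; exact hSy hv⟩]
      rw [h1, h2, res_apply, if_pos hcd]
    rw [Finset.sum_congr rfl hch]
    have h3 := h0 v hv
    rw [A_apply] at h3
    have h4 : D.dS (D.desc y) v = D.dS S v := by
      unfold dS
      rw [if_pos hv, if_pos (hSy hv)]
    rw [h4, res_apply (D.desc y) f v, if_pos hv]
    by_cases hvy : v = y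
    · subst hvy
      have h5 : D.cS (D.desc v) v = 0 := by
        unfold cS
        rw [if_neg]
        rintro ⟨-, -, h⟩
        exact D.p_notMem_desc hy h
      have h6 : D.cS S v = D.b v := by
        unfold cS
        rw [if_pos ⟨hy, hSy hv, hpy⟩]
      rw [h5, lp.single_apply_self]
      rw [h6] at h3
      linear_combination h3
    · have hvo := D.ne_o_of_mem_desc hy hv
      have hpv := D.p_mem_desc hv hvy
      have h5 : D.cS (D.desc y) v = D.b v := by
        unfold cS
        rw [if_pos ⟨hvo, hv, hpv⟩]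
      have h6 : D.cS S v = D.b v := by
        unfold cS
        rw [if_pos ⟨hvo, hSy hv, hSy hpv⟩]
      rw [h5, res_apply, if_pos hpv, lp.single_apply_ne _ _ _ hvy]
      rw [h6] at h3
      linear_combination h3
  · have h1 : D.cS (D.desc y) v = 0 := by
      unfold cS
      rw [if_neg]
      rintro ⟨-, h, -⟩
      exact hv h
    have h2 : ∀ c ∈ D.ch v, (starRingEnd ℂ) (D.cS (D.desc y) c) * res (D.desc y) f c = 0 := by
      intro c hc
      obtain ⟨hc1, hc2⟩ := (D.mem_ch v c).mp hc
      have : D.cS (D.desc y) c = 0 := by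
        unfold cS
        rw [if_neg]
        rintro ⟨-, -, h⟩
        rw [hc2] at h
        exact hv h
      rw [this]
      simp
    have h3 : D.dS (D.desc y) v = 0 := by
      unfold dS
      rw [if_neg hv]
    have hvy : v ≠ y := by
      rintro rfl
      exact hv (D.self_mem_desc _)
    rw [Finset.sum_eq_zero h2, h1, h3, res_apply (D.desc y) f v, if_neg hv,
      lp.single_apply_ne _ _ _ hvy]
    simp

theorem z_ne_zero {z : ℂ} (hz : z ∈ upper) : z ≠ 0 := by
  rintro rfl
  simp [upper] at hz

theorem g_spec_apply (S : Set V) (x v : V) {z : ℂ} (hz : z ∈ upper) :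
    D.A S (D.g S x z) v - z * D.g S x z v = (by classical exact if v = x then (1:ℂ) else 0) := by
  classical
  have h := congrArg (fun u : HH V => u v) (D.g_spec S x hz)
  have h2 : (D.A S (D.g S x z) - z • D.g S x z) v = D.A S (D.g S x z) v - z * D.g S x z v := rfl
  simp only at h
  rw [h2] at h
  rw [h]
  by_cases hv : v = x
  · subst hv
    rw [lp.single_apply_self]
    simp
  · rw [lp.single_apply_ne _ _ _ hv]
    simp [hv]

theorem g_zero (S : Set V) {x v : V} (hx : x ∈ S) (hv : v ∉ S) {z : ℂ} (hz : z ∈ upper) :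
    D.g S x z v = 0 := by
  classical
  have h := D.g_spec_apply S x v hz
  have hvx : v ≠ x := by
    rintro rfl
    exact hv hx
  rw [A_apply] at h
  have h1 : D.cS S v = 0 := by
    unfold cS
    rw [if_neg]
    rintro ⟨-, h, -⟩
    exact hv h
  have h2 : ∀ c ∈ D.ch v, (starRingEnd ℂ) (D.cS S c) * D.g S x z c = 0 := by
    intro c hc
    obtain ⟨hc1, hc2⟩ := (D.mem_ch v c).mp hc
    have : D.cS S c = 0 := by
      unfold cS
      rw [if_neg]
      rintro ⟨-, -, h⟩
      rw [hc2] at h
      exact hv h
    rw [this]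
    simp
  have h3 : D.dS S v = 0 := by
    unfold dS
    rw [if_neg hv]
  rw [Finset.sum_eq_zero h2, h1, h3] at h
  simp only [zero_mul, add_zero, zero_sub, hvx, if_false, neg_eq_zero, mul_eq_zero] at h
  rcases h with h | h
  · exact absurd h (z_ne_zero hz)
  · exact h

/-- diagonal Green function of the subtree at `x` -/
noncomputable def γ (x : V) (z : ℂ) : ℂ := D.g (D.desc x) x z x

/-- diagonal Green function of the full tree -/
noncomputable def G (x : V) (z : ℂ) : ℂ := D.g Set.univ x z x

theorem cS_desc_self (x : V) : D.cS (D.desc x) x = 0 := by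
  classical
  unfold cS
  rw [if_neg]
  rintro ⟨h1, -, h⟩
  exact D.p_notMem_desc h1 h

theorem γ_rec (x : V) {z : ℂ} (hz : z ∈ upper) :
    D.γ x z * (D.w x - z - ∑ y ∈ D.ch x, ((‖D.b y‖ ^ 2 : ℝ) : ℂ) * D.γ y z) = 1 := by
  classical
  have h := D.g_spec_apply (D.desc x) x x hz
  rw [A_apply, cS_desc_self] at h
  have hch : ∀ y ∈ D.ch x, (starRingEnd ℂ) (D.cS (D.desc x) y) * D.g (D.desc x) x z y =
      -(((‖D.b y‖ ^ 2 : ℝ) : ℂ) * D.γ y z) * D.γ x z := by
    intro y hy
    obtain ⟨hy1, hy2⟩ := (D.mem_ch x y).mp hy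
    have hr := D.restrict (D.desc x) hy1 (D.desc_subset hy2)
      (by rw [hy2]; exact D.self_mem_desc x) (D.g (D.desc x) x z) hz (by
        intro v hv
        rw [D.g_spec_apply (D.desc x) x v hz, if_neg]
        rintro rfl
        exact D.p_notMem_desc hy1 (by rw [hy2]; exact hv))
    have hr2 := congrArg (fun u : HH V => u y) hr
    simp only [res_apply, if_pos (D.self_mem_desc y)] at hr2
    have h3 : ((-(D.b y) * D.g (D.desc x) x z (D.p y)) • D.g (D.desc y) y z) y =
      (-(D.b y) * D.g (D.desc x) x z (D.p y)) * D.g (D.desc y) y z y := rfl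
    rw [h3, hy2] at hr2
    have h4 : D.cS (D.desc x) y = D.b y := by
      unfold cS
      rw [if_pos ⟨hy1, D.desc_subset hy2 (D.self_mem_desc y), by
        rw [hy2]; exact D.self_mem_desc x⟩]
    rw [h4, hr2]
    have h5 : (((‖D.b y‖ ^ 2 : ℝ) : ℂ)) = (starRingEnd ℂ) (D.b y) * D.b y := by
      rw [← Complex.normSq_eq_conj_mul_self, Complex.normSq_eq_norm_sq]
    rw [h5]
    unfold γ
    ring
  rw [Finset.sum_congr rfl hch, ← Finset.sum_mul, Finset.sum_neg_distrib] at h
  have h6 : D.dS (D.desc x) x = (D.w x : ℂ) := by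
    unfold dS
    rw [if_pos (D.self_mem_desc x)]
  rw [h6] at h
  simp only [if_true] at h
  have h7 : D.g (D.desc x) x z x = D.γ x z := rfl
  rw [h7] at h
  linear_combination h

theorem cS_univ {x : V} (hx : x ≠ D.o) : D.cS Set.univ x = D.b x := by
  classical
  unfold cS
  rw [if_pos ⟨hx, Set.mem_univ _, Set.mem_univ _⟩]

theorem G_rec {x : V} (hx : x ≠ D.o) {z : ℂ} (hz : z ∈ upper) :
    D.G x z = D.γ x z + ((‖D.b x‖ ^ 2 : ℝ) : ℂ) * (D.γ x z) ^ 2 * D.G (D.p x) z := by
  classical
  set u := D.g (D.desc x) x z with hu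
  set v := D.g Set.univ (D.p x) z with hv
  have hpx := D.p_notMem_desc hx
  have hu0 : ∀ y, y ∉ D.desc x → u y = 0 := fun y hy => D.g_zero _ (D.self_mem_desc x) hy hz
  -- restriction of v
  have hvx : v x = -(D.b x) * D.G (D.p x) z * D.γ x z := by
    have hr := D.restrict Set.univ hx (Set.subset_univ _) (Set.mem_univ _) v hz (by
      intro y hy
      rw [hv, D.g_spec_apply Set.univ (D.p x) y hz, if_neg]
      rintro rfl
      exact hpx hy)
    have hr2 := congrArg (fun u : HH V => u x) hr
    simp only [res_apply, if_pos (D.self_mem_desc x)] at hr2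
    exact hr2
  have key : u - ((starRingEnd ℂ) (D.b x) * u x) • v = (1:ℂ) • D.g Set.univ x z := by
    apply D.g_unique _ _ hz
    have hA : D.A Set.univ (u - ((starRingEnd ℂ) (D.b x) * u x) • v) -
        z • (u - ((starRingEnd ℂ) (D.b x) * u x) • v) =
        (D.A Set.univ u - z • u) - ((starRingEnd ℂ) (D.b x) * u x) • (D.A Set.univ v - z • v) := by
      rw [map_sub, map_smul, smul_sub, smul_sub]
      rw [smul_comm z]
      abel
    rw [hA, hv, D.g_spec Set.univ (D.p x) hz, one_smul]
    have hAu : D.A Set.univ u - z • u = lp.single 2 x (1:ℂ) +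
        ((starRingEnd ℂ) (D.b x) * u x) • lp.single 2 (D.p x) (1:ℂ) := by
      ext y
      have hL : (D.A Set.univ u - z • u) y = D.A Set.univ u y - z * u y := rfl
      have hR : ((lp.single 2 x (1:ℂ) : HH V) + ((starRingEnd ℂ) (D.b x) * u x) •
        (lp.single 2 (D.p x) (1:ℂ) : HH V)) y = (lp.single 2 x (1:ℂ) : HH V) y +
        ((starRingEnd ℂ) (D.b x) * u x) * (lp.single 2 (D.p x) (1:ℂ) : HH V) y := rfl
      rw [hL, hR, A_apply]
      by_cases hy : y ∈ D.desc x
      · have h1 := D.g_spec_apply (D.desc x) x y hz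
        rw [A_apply, ← hu] at h1
        have hyo : y ≠ D.o := D.ne_o_of_mem_desc hx hy
        have hypx : y ≠ D.p x := by
          rintro rfl
          exact hpx hy
        have hch : ∀ c ∈ D.ch y, (starRingEnd ℂ) (D.cS Set.univ c) * u c =
            (starRingEnd ℂ) (D.cS (D.desc x) c) * u c := by
          intro c hc
          obtain ⟨hc1, hc2⟩ := (D.mem_ch y c).mp hc
          have hcd : c ∈ D.desc x := D.mem_desc_of_p (by rw [hc2]; exact hy)
          rw [D.cS_univ hc1]
          have : D.cS (D.desc x) c = D.b c := by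
            unfold cS
            rw [if_pos ⟨hc1, hcd, by rw [hc2]; exact hy⟩]
          rw [this]
        rw [Finset.sum_congr rfl hch]
        have hd : D.dS Set.univ y = D.dS (D.desc x) y := by
          unfold dS
          rw [if_pos (Set.mem_univ _), if_pos hy]
        rw [hd, lp.single_apply_ne _ _ _ hypx, mul_zero, add_zero]
        by_cases hyx : y = x
        · subst hyx
          rw [hu0 _ hpx, lp.single_apply_self]
          rw [hu0 _ hpx] at h1
          simp only [if_true] at h1
          linear_combination h1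
        · rw [lp.single_apply_ne _ _ _ hyx]
          rw [if_neg hyx] at h1
          have h5 : D.cS (D.desc x) y = D.b y := by
            unfold cS
            rw [if_pos ⟨hyo, hy, D.p_mem_desc hy hyx⟩]
          rw [D.cS_univ hyo]
          rw [h5] at h1
          exact h1
      · have hyx : y ≠ x := by
          rintro rfl
          exact hy (D.self_mem_desc _)
        have hpy : u (D.p y) = 0 := hu0 _ (fun h => hy (D.mem_desc_of_p h))
        rw [hu0 y hy, hpy, lp.single_apply_ne _ _ _ hyx]
        by_cases hypx : y = D.p x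
        · subst hypx
          rw [lp.single_apply_self]
          have : ∑ c ∈ D.ch (D.p x), (starRingEnd ℂ) (D.cS Set.univ c) * u c =
              (starRingEnd ℂ) (D.b x) * u x := by
            rw [Finset.sum_eq_single x]
            · rw [D.cS_univ hx]
            · intro c hc hcx
              obtain ⟨hc1, hc2⟩ := (D.mem_ch _ c).mp hc
              rw [hu0 c, mul_zero]
              intro h
              have := D.p_mem_desc h hcx
              rw [hc2] at this
              exact hpx this
            · intro h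
              exact absurd ((D.mem_ch _ x).mpr ⟨hx, rfl⟩) h
          rw [this]
          ring
        · rw [lp.single_apply_ne _ _ _ hypx]
          have : ∑ c ∈ D.ch y, (starRingEnd ℂ) (D.cS Set.univ c) * u c = 0 := by
            apply Finset.sum_eq_zero
            intro c hc
            obtain ⟨hc1, hc2⟩ := (D.mem_ch _ c).mp hc
            rw [hu0 c, mul_zero]
            intro h
            by_cases hcx : c = x
            · subst hcx
              exact hypx hc2.symm
            · have := D.p_mem_desc h hcx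
              rw [hc2] at this
              exact hy this
          rw [this]
          ring
    rw [hAu]
    abel
  have hfin := congrArg (fun f : HH V => f x) key
  have e1 : (u - ((starRingEnd ℂ) (D.b x) * u x) • v) x =
    u x - ((starRingEnd ℂ) (D.b x) * u x) * v x := rfl
  simp only [one_smul] at hfin
  rw [e1, hvx] at hfin
  have h5 : (((‖D.b x‖ ^ 2 : ℝ) : ℂ)) = (starRingEnd ℂ) (D.b x) * D.b x := by
    rw [← Complex.normSq_eq_conj_mul_self, Complex.normSq_eq_norm_sq]
  have e2 : D.G x z = D.g Set.univ x z x := rfl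
  have e3 : u x = D.γ x z := rfl
  rw [e2, ← hfin, h5, e3]
  ring

end TD

end Pool.Agent.V1146.GF
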