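import Pool.Agent.V1146.GF.Op
import Pool.Agent.V1146.GF.Lim

open Filter Topology

namespace Pool.Agent.V1146.GF

/-- rooted tree data with normalized matrix entries -/
structure TD (V : Type) where
  o : V
  p : V → V
  po : p o = o
  reach : ∀ x, ∃ n, p^[n] x = o
  ch : V → Finset V
  mem_ch : ∀ x y, y ∈ ch x ↔ y ≠ o ∧ p y = x
  b : V → ℂ
  w : V → ℝ
  K : ℝ
  hK0 : 0 ≤ K
  hb : ∀ x, ∑ y ∈ ch x, ‖b y‖ ^ 2 ≤ K
  hw : ∀ x, (w x) ^ 2 ≤ K

namespace TD

variable {V : Type} (D : TD V)

def desc (x : V) : Set V := {y | ∃ n : ℕ, D.p^[n] y = x}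

open Classical in
noncomputable def cS (S : Set V) (x : V) : ℂ := if x ≠ D.o ∧ x ∈ S ∧ D.p x ∈ S then D.b x else 0

open Classical in
noncomputable def dS (S : Set V) (x : V) : ℂ := if x ∈ S then (D.w x : ℂ) else 0

open Classical in
theorem cS_bound (S : Set V) (y : V) (F : Finset V) :
    ∑ x ∈ F with D.p x = y, ‖D.cS S x‖ ^ 2 ≤ D.K := by
  refine le_trans ?_ (D.hb y)
  calc ∑ x ∈ F with D.p x = y, ‖D.cS S x‖ ^ 2
      = ∑ x ∈ (F.filter (fun x => D.p x = y)).filter (fun x => x ≠ D.o), ‖D.cS S x‖ ^ 2 := by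
        rw [Finset.sum_filter_of_ne (p := fun x => x ≠ D.o)]
        intro x _ hx h
        apply hx
        simp [cS, h]
    _ ≤ ∑ x ∈ D.ch y, ‖D.cS S x‖ ^ 2 := by
        apply Finset.sum_le_sum_of_subset_of_nonneg
        · intro x hx
          rw [Finset.mem_filter, Finset.mem_filter] at hx
          exact (D.mem_ch y x).mpr ⟨hx.2, hx.1.2⟩
        · intro _ _ _
          positivity
    _ ≤ _ := by
        apply Finset.sum_le_sum
        intro x _
        unfold cS
        split_ifs
        · exact le_rfl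
        · simp

open Classical in
theorem dS_bound (S : Set V) (y : V) (F : Finset V) :
    ∑ x ∈ F with id x = y, ‖D.dS S x‖ ^ 2 ≤ D.K := by
  have h1 : ∀ x, ‖D.dS S x‖ ^ 2 ≤ D.K := by
    intro x
    unfold dS
    split_ifs
    · rw [Complex.norm_real, Real.norm_eq_abs, sq_abs]
      exact D.hw x
    · simpa using D.hK0
  have h2 : F.filter (fun x => id x = y) ⊆ {y} := by
    intro x hx
    rw [Finset.mem_filter] at hx
    simpa using hx.2
  calc _ ≤ ∑ x ∈ {y}, ‖D.dS S x‖ ^ 2 :=
        Finset.sum_le_sum_of_subset_of_nonneg h2 (fun _ _ _ => by positivity)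
    _ ≤ _ := by simpa using h1 y

noncomputable def U (S : Set V) : HH V →L[ℂ] HH V :=
  wc D.p (D.cS S) D.K D.hK0 (D.cS_bound S)

noncomputable def W (S : Set V) : HH V →L[ℂ] HH V :=
  wc id (D.dS S) D.K D.hK0 (D.dS_bound S)

noncomputable def A (S : Set V) : HH V →L[ℂ] HH V :=
  (D.U S + ContinuousLinearMap.adjoint (D.U S)) + D.W S

theorem A_apply (S : Set V) (f : HH V) (v : V) :
    D.A S f v = D.cS S v * f (D.p v) + ∑ y ∈ D.ch v, (starRingEnd ℂ) (D.cS S y) * f y +
      D.dS S v * f v := by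
  have h1 : (ContinuousLinearMap.adjoint (D.U S) f) v =
      ∑ y ∈ D.ch v, (starRingEnd ℂ) (D.cS S y) * f y := by
    apply wc_adjoint_apply
    · intro x hx
      exact ((D.mem_ch v x).mp hx).2
    · intro x hx hc
      rw [D.mem_ch]
      refine ⟨?_, hx⟩
      intro h
      apply hc
      simp [cS, h]
  have h2 : D.A S f v = D.U S f v + (ContinuousLinearMap.adjoint (D.U S) f) v + D.W S f v := rfl
  rw [h2, h1]
  rfl

theorem W_selfAdjoint (S : Set V) : IsSelfAdjoint (D.W S) := by
  rw [ContinuousLinearMap.isSelfAdjoint_iff_isSymmetric]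
  intro f g
  simp only [ContinuousLinearMap.coe_coe]
  rw [lp.inner_eq_tsum, lp.inner_eq_tsum]
  congr 1
  funext x
  rw [W, wc_apply, wc_apply]
  have : (starRingEnd ℂ) (D.dS S x) = D.dS S x := by
    unfold dS
    split_ifs <;> simp
  simp only [id, RCLike.inner_apply, map_mul, this]
  ring

theorem A_selfAdjoint (S : Set V) : IsSelfAdjoint (D.A S) := by
  apply IsSelfAdjoint.add _ (D.W_selfAdjoint S)
  have := IsSelfAdjoint.add_star_self (D.U S)
  rwa [ContinuousLinearMap.star_eq_adjoint] at this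

/-- resolvent vector -/
noncomputable def g (S : Set V) (x : V) (z : ℂ) : HH V := by
  classical exact -(resolvent (D.A S) z (lp.single 2 x (1:ℂ)))

open Classical in
theorem g_def (S : Set V) (x : V) (z : ℂ) :
    D.g S x z = -(resolvent (D.A S) z (lp.single 2 x (1:ℂ))) := by
  unfold g
  congr

theorem mem_resolventSet (S : Set V) {z : ℂ} (hz : z ∈ upper) :
    z ∈ resolventSet ℂ (D.A S) := by
  by_contra h
  have h1 : z ∈ spectrum ℂ (D.A S) := h
  have h2 := (D.A_selfAdjoint S).im_eq_zero_of_mem_spectrum h1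
  have h3 : 0 < z.im := hz
  linarith

theorem resolvent_mul (S : Set V) {z : ℂ} (hz : z ∈ upper) :
    resolvent (D.A S) z * (algebraMap ℂ _ z - D.A S) = 1 :=
  Ring.inverse_mul_cancel _ (D.mem_resolventSet S hz)

theorem mul_resolvent (S : Set V) {z : ℂ} (hz : z ∈ upper) :
    (algebraMap ℂ _ z - D.A S) * resolvent (D.A S) z = 1 :=
  Ring.mul_inverse_cancel _ (D.mem_resolventSet S hz)

open Classical in
theorem g_spec (S : Set V) (x : V) {z : ℂ} (hz : z ∈ upper) :
    D.A S (D.g S x z) - z • D.g S x z = lp.single 2 x (1:ℂ) := by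
  have h := congrArg (fun T : HH V →L[ℂ] HH V => T (lp.single 2 x (1:ℂ))) (D.mul_resolvent S hz)
  rw [Algebra.algebraMap_eq_smul_one] at h
  change z • (resolvent (D.A S) z (lp.single 2 x (1:ℂ))) -
    D.A S (resolvent (D.A S) z (lp.single 2 x (1:ℂ))) = lp.single 2 x (1:ℂ) at h
  rw [g_def, map_neg, smul_neg]
  refine Eq.trans ?_ h
  abel

open Classical in
theorem g_unique (S : Set V) (x : V) {z : ℂ} (hz : z ∈ upper) (f : HH V) (κ : ℂ)
    (hf : D.A S f - z • f = κ • lp.single 2 x (1:ℂ)) : f = κ • D.g S x z := by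
  have h := congrArg (fun T : HH V →L[ℂ] HH V => T f) (D.resolvent_mul S hz)
  rw [Algebra.algebraMap_eq_smul_one] at h
  change resolvent (D.A S) z (z • f - D.A S f) = f at h
  have h2 : z • f - D.A S f = -(κ • lp.single 2 x (1:ℂ)) := by rw [← hf]; abel
  rw [h2] at h
  rw [← h, g_def, map_neg, map_smul, smul_neg]

theorem g_diff (S : Set V) (x y : V) : DifferentiableOn ℂ (fun z => D.g S x z y) upper := by
  classical
  intro z hz
  have h1 := (spectrum.hasDerivAt_resolvent_const_left (D.mem_resolventSet S hz)).differentiableAt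
  have h2 : DifferentiableAt ℂ (fun z => D.g S x z) z := by
    simp only [g_def]
    exact (h1.clm_apply (differentiableAt_const _)).neg
  have h3 : (fun z => D.g S x z y) = fun z => innerSL ℂ (lp.single 2 y (1:ℂ)) (D.g S x z) := by
    funext z
    rw [innerSL_apply_apply, lp.inner_single_left]
    simp
  rw [h3]
  exact ((innerSL ℂ (lp.single 2 y (1:ℂ) : HH V)).differentiableAt.comp z h2).differentiableWithinAt

theorem g_im (S : Set V) (x : V) {z : ℂ} (hz : z ∈ upper) :
    (D.g S x z x).im = z.im * ‖D.g S x z‖ ^ 2 := by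
  classical
  set f := D.g S x z with hf
  have h1 := congrArg (fun u => inner ℂ f u) (D.g_spec S x hz)
  simp only [inner_sub_right, inner_smul_right, lp.inner_single_right] at h1
  rw [← hf, inner_self_eq_norm_sq_to_K] at h1
  have h2 : (inner ℂ f (D.A S f)).im = 0 := by
    have := (ContinuousLinearMap.isSelfAdjoint_iff_isSymmetric.mp (D.A_selfAdjoint S))
    exact this.im_inner_self_apply f
  have h3 := congrArg Complex.im h1
  simp at h3
  rw [h2] at h3
  have h4 : (((‖f‖ : ℂ)) ^ 2).re = ‖f‖ ^ 2 := by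
    rw [← Complex.ofReal_pow, Complex.ofReal_re]
  have h5 : (((‖f‖ : ℂ)) ^ 2).im = 0 := by
    rw [← Complex.ofReal_pow, Complex.ofReal_im]
  rw [h4, h5] at h3
  linarith

end TD

end Pool.Agent.V1146.GF
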